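import Mathlib
import Pool.Agent.H.MP_5d65a3_an.D

namespace Pool.Agent.Results.MP_5d65a3_an.No

open Set Metric Filter Topology MeasureTheory
open scoped ENNReal NNReal

/-- The composition `u i₁ ∘ ⋯ ∘ u iₙ` along a finite word. -/
def cp (u : ℕ → ℝ → ℝ) (l : List ℕ) : ℝ → ℝ := l.foldr (fun i h => u i ∘ h) id

/-- The limit set of the subsystem indexed by `A`. -/
def Lam (X : Set ℝ) (u : ℕ → ℝ → ℝ) (A : Set ℕ) : Set ℝ :=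
  {x | ∃ ω : ℕ → ℕ, (∀ n, ω n ∈ A) ∧ ∀ N, x ∈ cp u (List.ofFn fun k : Fin N => ω k) '' X}

/-- The dimension spectrum. -/
def DS (X : Set ℝ) (u : ℕ → ℝ → ℝ) : Set ℝ :=
  {s | 0 ≤ s ∧ ∃ A : Set ℕ, dimH (Lam X u A) = ENNReal.ofReal s}

/-- Conditions on `X` and `V`, including the cone condition. -/
def Dom (X V : Set ℝ) : Prop :=
  X.Nonempty ∧ IsCompact X ∧ closure (interior X) = X ∧ IsOpen V ∧ IsConnected V ∧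
    Bornology.IsBounded V ∧ (∃ δ : ℝ, 0 < δ ∧ thickening δ X ⊆ V) ∧
    ∃ γ : ℝ, 0 < γ ∧ ∀ x ∈ X, ∀ r ∈ Ioo (0 : ℝ) 1, ENNReal.ofReal (γ * r) ≤ volume (X ∩ ball x r)

/-- A smooth diffeomorphism of `V` onto an open subset of `V` (conformal map, `d = 1`). -/
def Conf (V : Set ℝ) (f : ℝ → ℝ) : Prop :=
  ContDiffOn ℝ (⊤ : ℕ∞) f V ∧ (∀ x ∈ V, deriv f x ≠ 0) ∧ InjOn f V ∧ IsOpen (f '' V) ∧ MapsTo f V V

/-- An infinite conformal iterated function system on the line, alphabet `ℕ`. -/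
def CIFS (X V : Set ℝ) (u : ℕ → ℝ → ℝ) : Prop :=
  Dom X V ∧ (∀ a, MapsTo (u a) X X ∧ Conf V (u a)) ∧
    (∀ a b, a ≠ b → Disjoint (u a '' interior X) (u b '' interior X)) ∧
    (∃ L : ℝ, L < 1 ∧ ∀ a, ∀ x ∈ V, |deriv (u a) x| ≤ L) ∧
    (∀ ε : ℝ, 0 < ε → ∀ᶠ a in atTop, ∀ x ∈ V, |deriv (u a) x| ≤ ε) ∧
    ∃ C : ℝ, 1 ≤ C ∧ ∀ l : List ℕ, ∀ x ∈ V, ∀ y ∈ V, |deriv (cp u l) x| ≤ C * |deriv (cp u l) y|

theorem result : ∃ (X V : Set ℝ) (u : ℕ → ℝ → ℝ), CIFS X V u ∧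
    (∃ t : ℝ, 0 < t ∧ DS X u = Icc 0 t ∪ Icc (2 * t) (3 * t)) ∧
    (fun x => sSup (DS X u) - x) '' DS X u = DS X u ∧ ∀ lam : ℝ, DS X u ≠ Icc 0 lam :=
  Pool.Agent.H.MP_5d65a3_an.main

end Pool.Agent.Results.MP_5d65a3_an.No
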